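import Pool.Agent.Helper88.EL.Basic
import Pool.Agent.Helper4.EL.Lattice

/-!
# Content and uniqueness of clean lattices (MP_287ff4_al)
-/

set_option autoImplicit false

namespace Pool.Agent.Helper28.EL

open Pool.Agent.Helper88.EL LaurentPolynomial

lemma coeff_nsmul (k : ℕ) (f : AQ) (n : ℤ) : (k • f).coeff n = (k : ℚ) * f.coeff n := by
  rw [AddMonoidAlgebra.coeff_smul_apply, nsmul_eq_mul]

lemma exists_mul_isInt (f : AQ) : ∃ N : ℕ, 0 < N ∧ IsInt (N • f) := by
  classical
  refine ⟨∏ n ∈ f.coeff.support, (f.coeff n).den, Finset.prod_pos fun n _ => (f.coeff n).den_pos,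
    fun n => ?_⟩
  by_cases hn : n ∈ f.coeff.support
  · obtain ⟨k, hk⟩ := Finset.dvd_prod_of_mem (fun n => (f.coeff n).den) hn
    refine ⟨k * (f.coeff n).num, ?_⟩
    rw [AddMonoidAlgebra.coeff_smul_apply, hk, nsmul_eq_mul]
    push_cast
    have h1 : ((f.coeff n).den : ℚ) * f.coeff n = (f.coeff n).num := by
      rw [mul_comm]; exact Rat.mul_den_eq_num _
    calc ((f.coeff n).den : ℚ) * k * f.coeff n = k * (((f.coeff n).den : ℚ) * f.coeff n) := by ring
      _ = _ := by rw [h1]
  · refine ⟨0, ?_⟩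
    rw [AddMonoidAlgebra.coeff_smul_apply, Finsupp.notMem_support_iff.1 hn]
    simp

theorem content : ContentStmt := by
  classical
  intro L hL v hv f hf
  have hc : 0 < ord L v := hL.ord_pos v
  have hcv : ord L v • cst v ∈ L := ord_dvd_iff.1 dvd_rfl
  set c := ord L v with hcdef
  have hex : ∃ N : ℕ, 0 < N ∧ ∃ h, IsInt h ∧ N • f = c • h := by
    obtain ⟨M, hM, hMf⟩ := exists_mul_isInt f
    exact ⟨c * M, Nat.mul_pos hc hM, M • f, hMf, by rw [mul_smul]⟩
  obtain ⟨hN, h, hh, hNf⟩ := Nat.find_spec hex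
  have hmin := fun m (hm : m < Nat.find hex) => Nat.find_min hex hm
  set N := Nat.find hex with hNdef
  by_cases hN1 : N = 1
  · exact ⟨h, hh, by rw [← hNf, hN1, one_smul]⟩
  exfalso
  obtain ⟨l, hl, N', hN'⟩ := Nat.exists_prime_and_dvd hN1
  have hN'0 : 0 < N' := by
    rcases Nat.eq_zero_or_pos N' with h0 | h0
    · rw [h0] at hN'; omega
    · exact h0
  have hN'lt : N' < N := by
    rw [hN']
    have := hl.two_le
    nlinarith
  have key : h • (c • cst v) = l • (N' • (f • cst v)) := by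
    calc h • (c • cst v) = (c • h) • cst v := by rw [smul_comm, smul_assoc]
      _ = (N • f) • cst v := by rw [hNf]
      _ = l • (N' • (f • cst v)) := by rw [hN', mul_smul, smul_assoc, smul_assoc]
  rcases hL.prime l hl h hh (c • cst v) hcv ⟨_, L.nsmul_mem hf N', key⟩ with
    ⟨f', hf', hh'⟩ | ⟨w', hw', hw⟩
  · refine hmin N' hN'lt ⟨hN'0, f', hf', ?_⟩
    have h1 : l • (N' • f) = l • (c • f') := by
      rw [smul_smul, ← hN', hNf, hh', smul_comm]
    ext n
    have h2 : (l • (N' • f)).coeff n = (l • (c • f')).coeff n := by rw [h1]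
    rw [coeff_nsmul, coeff_nsmul] at h2
    exact mul_left_cancel₀ (by exact_mod_cast hl.ne_zero : (l : ℚ) ≠ 0) h2
  · have hl0 : (l : ℚ) ≠ 0 := by exact_mod_cast hl.ne_zero
    have hw'eq : w' = cst (((c : ℚ) / l) • v) := by
      ext i : 1
      ext n
      have h2 : (c • cst v i).coeff n = (l • w' i).coeff n := by
        rw [← Pi.smul_apply, hw, Pi.smul_apply]
      rw [coeff_nsmul, coeff_nsmul, cst_apply, C_apply] at h2
      rw [cst_apply, C_apply]
      split_ifs at h2 ⊢ with h3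
      · rw [Pi.smul_apply, smul_eq_mul, div_mul_eq_mul_div, eq_div_iff hl0, mul_comm, ← h2]
      · rw [mul_zero] at h2
        rcases mul_eq_zero.1 h2.symm with h4 | h4
        · exact absurd h4 hl0
        · exact h4
    have hlam : ((c : ℚ) / l) • v ∈ Lam L := by
      change cst _ ∈ L
      rw [← hw'eq]; exact hw'
    have hm : ∃ m : ℤ, (c : ℚ) / l = m := by
      rcases hv with hv | hv
      · exact hv.2 _ (E0_lam hlam)
      · exact hv.2 _ (Ei_lam hlam)
    obtain ⟨m, hm⟩ := hm
    have hmpos : (0 : ℚ) < m := by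
      rw [← hm]
      have : (0 : ℚ) < c := by exact_mod_cast hc
      have : (0 : ℚ) < l := by exact_mod_cast hl.pos
      positivity
    have hmpos' : 0 < m := by exact_mod_cast hmpos
    obtain ⟨m', rfl⟩ := Int.eq_ofNat_of_zero_le hmpos'.le
    have hcl : c = l * m' := by
      have : (c : ℚ) = l * m' := by
        rw [div_eq_iff hl0] at hm
        rw [hm]; push_cast; ring
      exact_mod_cast this
    have hmem : m' • cst v ∈ L := by
      have : m' • cst v = w' := by
        rw [hw'eq, hm]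
        ext i : 1
        simp
      rw [this]; exact hw'
    have hdvd := ord_dvd_iff.2 hmem
    rw [← hcdef] at hdvd
    have hle := Nat.le_of_dvd (by exact_mod_cast hmpos') hdvd
    have := hl.two_le
    have hm'0 : 0 < m' := by exact_mod_cast hmpos'
    nlinarith

/-! ### products of Laurent polynomials bounded below -/

lemma coeff_mul_low {f b : AQ} {s : ℤ} (hf : ∀ n < s, f.coeff n = 0)
    (hb : ∀ n < (0 : ℤ), b.coeff n = 0) : ∀ n < s, (f * b).coeff n = 0 := by
  classical
  intro n hn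
  rw [AddMonoidAlgebra.coeff_mul, Finsupp.sum]
  refine Finset.sum_eq_zero fun i _ => ?_
  rw [Finsupp.sum]
  refine Finset.sum_eq_zero fun j _ => ?_
  split_ifs with h
  · by_cases hi : i < s
    · rw [hf i hi, zero_mul]
    · rw [hb j (by omega), mul_zero]
  · rfl

lemma coeff_mul_high {f b : AQ} {s : ℤ} (hf : ∀ n > s, f.coeff n = 0)
    (hb : ∀ n > (0 : ℤ), b.coeff n = 0) : ∀ n > s, (f * b).coeff n = 0 := by
  classical
  intro n hn
  rw [AddMonoidAlgebra.coeff_mul, Finsupp.sum]
  refine Finset.sum_eq_zero fun i _ => ?_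
  rw [Finsupp.sum]
  refine Finset.sum_eq_zero fun j _ => ?_
  split_ifs with h
  · by_cases hi : i > s
    · rw [hf i hi, zero_mul]
    · rw [hb j (by omega), mul_zero]
  · rfl

lemma coeff_C_mul_T (a : ℚ) (k n : ℤ) : ((C a * T k : AQ)).coeff n = if n = k then a else 0 := by
  rw [coeff_mul_T, C_apply]
  by_cases h : n = k
  · rw [if_pos h, if_pos (by omega)]
  · rw [if_neg h, if_neg (by omega)]

lemma exists_bound (f : AQ) : ∃ N : ℕ, (∀ n < -(N : ℤ), f.coeff n = 0) ∧
    ∀ n > (N : ℤ), f.coeff n = 0 := by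
  refine ⟨f.coeff.support.sup Int.natAbs, fun n hn => ?_, fun n hn => ?_⟩
  · by_contra h
    have := Finset.le_sup (f := Int.natAbs) (Finsupp.mem_support_iff.2 h)
    omega
  · by_contra h
    have := Finset.le_sup (f := Int.natAbs) (Finsupp.mem_support_iff.2 h)
    omega

/-- if `f * b` has integral coefficients at negative powers and `b ∈ 1 + x ℤ[x]`, then so has
`f`. -/
lemma low_div {b : AQ} (hb : IsInt b) (hb0 : ∀ n < (0 : ℤ), b.coeff n = 0) (hb1 : b.coeff 0 = 1) :
    ∀ (N : ℕ) (f : AQ), (∀ n < -(N : ℤ), f.coeff n = 0) →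
      (∀ n < (0 : ℤ), ∃ m : ℤ, (f * b).coeff n = m) → ∀ n < (0 : ℤ), ∃ m : ℤ, f.coeff n = m := by
  intro N
  induction N with
  | zero =>
    intro f hf _ n hn
    exact ⟨0, by rw [hf n (by simpa using hn)]; simp⟩
  | succ N ih =>
    intro f hf hfb n hn
    set k : ℤ := -((N + 1 : ℕ) : ℤ) with hk
    set a : ℚ := f.coeff k with ha
    -- the remaining part
    have hg0 : ∀ n < k + 1, (f - C a * T k).coeff n = 0 := by
      intro n hn
      rw [AddMonoidAlgebra.coeff_sub, Finsupp.sub_apply, coeff_C_mul_T]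
      split_ifs with h
      · rw [h, ha, sub_self]
      · rw [hf n (by omega), sub_zero]
    have hprod : f * b = (f - C a * T k) * b + C a * T k * b := by ring
    have hak : (f * b).coeff k = a := by
      rw [hprod, AddMonoidAlgebra.coeff_add, Finsupp.add_apply,
        coeff_mul_low hg0 hb0 k (by omega), zero_add, mul_assoc, coeff_C_mul, coeff_T_mul,
        sub_self, hb1, mul_one]
    obtain ⟨m, hm⟩ := hfb k (by omega)
    have ham : a = m := by rw [← hak, hm]
    have hrec := ih (f - C a * T k) (fun n hn => hg0 n (by omega)) (fun n hn => by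
      obtain ⟨m1, hm1⟩ := hfb n hn
      obtain ⟨m2, hm2⟩ := hb (n - k)
      refine ⟨m1 - m * m2, ?_⟩
      have h1 : (f - C a * T k) * b = f * b - C a * (T k * b) := by ring
      rw [h1, AddMonoidAlgebra.coeff_sub, Finsupp.sub_apply, coeff_C_mul, coeff_T_mul, hm1, hm2,
        ham]
      push_cast; ring)
    obtain ⟨m3, hm3⟩ := hrec n hn
    rw [AddMonoidAlgebra.coeff_sub, Finsupp.sub_apply, coeff_C_mul_T] at hm3
    split_ifs at hm3 with h
    · exact ⟨m, by rw [h, ← ha, ham]⟩
    · exact ⟨m3, by rw [← hm3, sub_zero]⟩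

lemma high_div {b : AQ} (hb : IsInt b) (hb0 : ∀ n > (0 : ℤ), b.coeff n = 0) (hb1 : b.coeff 0 = 1) :
    ∀ (N : ℕ) (f : AQ), (∀ n > (N : ℤ), f.coeff n = 0) →
      (∀ n > (0 : ℤ), ∃ m : ℤ, (f * b).coeff n = m) → ∀ n > (0 : ℤ), ∃ m : ℤ, f.coeff n = m := by
  intro N
  induction N with
  | zero =>
    intro f hf _ n hn
    exact ⟨0, by rw [hf n (by simpa using hn)]; simp⟩
  | succ N ih =>
    intro f hf hfb n hn
    set k : ℤ := ((N + 1 : ℕ) : ℤ) with hk
    set a : ℚ := f.coeff k with ha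
    have hg0 : ∀ n > k - 1, (f - C a * T k).coeff n = 0 := by
      intro n hn
      rw [AddMonoidAlgebra.coeff_sub, Finsupp.sub_apply, coeff_C_mul_T]
      split_ifs with h
      · rw [h, ha, sub_self]
      · rw [hf n (by omega), sub_zero]
    have hprod : f * b = (f - C a * T k) * b + C a * T k * b := by ring
    have hak : (f * b).coeff k = a := by
      rw [hprod, AddMonoidAlgebra.coeff_add, Finsupp.add_apply,
        coeff_mul_high hg0 hb0 k (by omega), zero_add, mul_assoc, coeff_C_mul, coeff_T_mul,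
        sub_self, hb1, mul_one]
    obtain ⟨m, hm⟩ := hfb k (by omega)
    have ham : a = m := by rw [← hak, hm]
    have hrec := ih (f - C a * T k) (fun n hn => hg0 n (by omega)) (fun n hn => by
      obtain ⟨m1, hm1⟩ := hfb n hn
      obtain ⟨m2, hm2⟩ := hb (n - k)
      refine ⟨m1 - m * m2, ?_⟩
      have h1 : (f - C a * T k) * b = f * b - C a * (T k * b) := by ring
      rw [h1, AddMonoidAlgebra.coeff_sub, Finsupp.sub_apply, coeff_C_mul, coeff_T_mul, hm1, hm2,
        ham]
      push_cast; ring)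
    obtain ⟨m3, hm3⟩ := hrec n hn
    rw [AddMonoidAlgebra.coeff_sub, Finsupp.sub_apply, coeff_C_mul_T] at hm3
    split_ifs at hm3 with h
    · exact ⟨m, by rw [h, ← ha, ham]⟩
    · exact ⟨m3, by rw [← hm3, sub_zero]⟩

/-! ### clean lines -/

lemma low_int {L : AddSubgroup V} (hL : IsLat L) (h1 : Prim (E0 L) e1) (hc : e1 ∈ Lam L) :
    ∀ (N : ℕ) (q : V), q ∈ L → (∀ n < (0 : ℤ), (q 1).coeff n = 0) →
      (∀ n < -(N : ℤ), (q 0).coeff n = 0) → ∀ n < (0 : ℤ), ∃ m : ℤ, (q 0).coeff n = m := by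
  intro N
  induction N with
  | zero =>
    intro q _ _ hq n hn
    exact ⟨0, by rw [hq n (by simpa using hn)]; simp⟩
  | succ N ih =>
    intro q hq hq1 hq0 n hn
    set k : ℤ := -((N + 1 : ℕ) : ℤ) with hk
    set a : ℚ := (q 0).coeff k with ha
    have hmem : a • e1 ∈ E0 L := by
      refine ⟨(T (-k) : AQ) • q, (hL.T_smul _).2 hq, fun i n hn => ?_, fun i => ?_⟩
      · rw [Pi.smul_apply, smul_eq_mul, coeff_T_mul]
        fin_cases i
        · exact hq0 _ (by omega)
        · exact hq1 _ (by omega)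
      · rw [Pi.smul_apply, smul_eq_mul, coeff_T_mul]
        fin_cases i
        · simp [ha, e1]
        · simp only [Fin.mk_one, e1, Pi.smul_apply, smul_eq_mul]
          rw [hq1 _ (by omega)]; simp
    obtain ⟨m, hm⟩ := h1.2 a hmem
    have hq' : q - (C a * T k : AQ) • cst e1 ∈ L := by
      refine L.sub_mem hq (hL.smul _ ?_ _ hc)
      rw [hm]
      exact (isInt_C_int m).mul (isInt_T k)
    have e0 : (q - (C a * T k : AQ) • cst e1) 0 = q 0 - C a * T k := by simp [e1]
    have e1' : (q - (C a * T k : AQ) • cst e1) 1 = q 1 := by simp [e1]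
    have hrec := ih _ hq' (by rw [e1']; exact hq1) (fun n hn => by
      rw [e0, AddMonoidAlgebra.coeff_sub, Finsupp.sub_apply, coeff_C_mul_T]
      split_ifs with h
      · rw [h, ha, sub_self]
      · rw [hq0 n (by omega), sub_zero])
    obtain ⟨m3, hm3⟩ := hrec n hn
    rw [e0, AddMonoidAlgebra.coeff_sub, Finsupp.sub_apply, coeff_C_mul_T] at hm3
    split_ifs at hm3 with h
    · exact ⟨m, by rw [h, ← ha, hm]⟩
    · exact ⟨m3, by rw [← hm3, sub_zero]⟩

lemma high_int {L : AddSubgroup V} (hL : IsLat L) (h1 : Prim (Ei L) e1) (hc : e1 ∈ Lam L) :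
    ∀ (N : ℕ) (q : V), q ∈ L → (∀ n > (0 : ℤ), (q 1).coeff n = 0) →
      (∀ n > (N : ℤ), (q 0).coeff n = 0) → ∀ n > (0 : ℤ), ∃ m : ℤ, (q 0).coeff n = m := by
  intro N
  induction N with
  | zero =>
    intro q _ _ hq n hn
    exact ⟨0, by rw [hq n (by simpa using hn)]; simp⟩
  | succ N ih =>
    intro q hq hq1 hq0 n hn
    set k : ℤ := ((N + 1 : ℕ) : ℤ) with hk
    set a : ℚ := (q 0).coeff k with ha
    have hmem : a • e1 ∈ Ei L := by
      refine ⟨(T (-k) : AQ) • q, (hL.T_smul _).2 hq, fun i n hn => ?_, fun i => ?_⟩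
      · rw [Pi.smul_apply, smul_eq_mul, coeff_T_mul]
        fin_cases i
        · exact hq0 _ (by omega)
        · exact hq1 _ (by omega)
      · rw [Pi.smul_apply, smul_eq_mul, coeff_T_mul]
        fin_cases i
        · simp [ha, e1]
        · simp only [Fin.mk_one, e1, Pi.smul_apply, smul_eq_mul]
          rw [hq1 _ (by omega)]; simp
    obtain ⟨m, hm⟩ := h1.2 a hmem
    have hq' : q - (C a * T k : AQ) • cst e1 ∈ L := by
      refine L.sub_mem hq (hL.smul _ ?_ _ hc)
      rw [hm]
      exact (isInt_C_int m).mul (isInt_T k)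
    have e0 : (q - (C a * T k : AQ) • cst e1) 0 = q 0 - C a * T k := by simp [e1]
    have e1' : (q - (C a * T k : AQ) • cst e1) 1 = q 1 := by simp [e1]
    have hrec := ih _ hq' (by rw [e1']; exact hq1) (fun n hn => by
      rw [e0, AddMonoidAlgebra.coeff_sub, Finsupp.sub_apply, coeff_C_mul_T]
      split_ifs with h
      · rw [h, ha, sub_self]
      · rw [hq0 n (by omega), sub_zero])
    obtain ⟨m3, hm3⟩ := hrec n hn
    rw [e0, AddMonoidAlgebra.coeff_sub, Finsupp.sub_apply, coeff_C_mul_T] at hm3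
    split_ifs at hm3 with h
    · exact ⟨m, by rw [h, ← ha, hm]⟩
    · exact ⟨m3, by rw [← hm3, sub_zero]⟩

lemma snd_isInt {L : AddSubgroup V} (hL : IsLat L) (hc : e1 ∈ Lam L) {p : V} (hp : p ∈ L) :
    IsInt (p 1) := by
  have h := hL.det (cst e1) hc p hp
  have : dt (cst e1) p = p 1 := by simp [dt, e1]
  rwa [this] at h

theorem uniq : ContentStmt → UniqStmt := by
  intro _ L hL hcl
  obtain ⟨⟨hP0, hPi⟩, hlam⟩ := hcl
  constructor
  · intro h hh
    ext p
    rw [mem_cm, Um_mulVec]
    constructor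
    · intro hp
      have h1 : IsInt (p 1) := by simpa using snd_isInt hL hlam hp
      have h2 := hL.smul (h * p 1) (hh.mul h1) _ hlam
      have h3 := L.sub_mem hp h2
      have : ![p 0 + h * p 1, p 1] - (h * p 1) • cst e1 = p := by
        ext i : 1; fin_cases i <;> simp [e1]
      rwa [this] at h3
    · intro hp
      have h1 : IsInt (p 1) := snd_isInt hL hlam hp
      have h2 := hL.smul (h * p 1) (hh.mul h1) _ hlam
      have h3 := L.add_mem hp h2
      have : p + (h * p 1) • cst e1 = ![p 0 + h * p 1, p 1] := by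
        ext i : 1; fin_cases i <;> simp [e1]
      rwa [this] at h3
  · intro f hL2 hcl2
    obtain ⟨⟨hP0', hPi'⟩, hlam'⟩ := hcl2
    obtain ⟨N, hN1, hN2⟩ := exists_bound f
    -- low coefficients
    have hlow : ∀ n < (0 : ℤ), ∃ m : ℤ, f.coeff n = m := by
      obtain ⟨_, c2, _⟩ := Pool.Agent.Helper4.EL.covBasic (E0 L) hL.cov0
      obtain ⟨u', ⟨p, hp, hp1, hp2⟩, hd⟩ := c2 e1 hP0
      have hb := snd_isInt hL hlam hp
      have hb1 : (p 1).coeff 0 = 1 := by
        rw [hp2 1]
        simpa [dq, e1] using hd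
      have hq : ![p 0 - f * p 1, p 1] ∈ cm (Um f) L := by
        rw [mem_cm, Um_mulVec]
        have : ![(![p 0 - f * p 1, p 1] : V) 0 + f * (![p 0 - f * p 1, p 1] : V) 1,
            (![p 0 - f * p 1, p 1] : V) 1] = p := by
          ext i : 1; fin_cases i <;> simp
        rw [this]; exact hp
      obtain ⟨M, hM1, _⟩ := exists_bound (p 0 - f * p 1)
      have h3 := low_int hL2 hP0' hlam' M _ hq (by simpa using hp1 1) (by simpa using hM1)
      refine low_div hb (hp1 1) hb1 N f hN1 (fun n hn => ?_)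
      obtain ⟨m, hm⟩ := h3 n hn
      refine ⟨-m, ?_⟩
      simp only [Matrix.cons_val_zero, AddMonoidAlgebra.coeff_sub, Finsupp.sub_apply,
        hp1 0 n hn] at hm
      push_cast
      linarith
    have hhigh : ∀ n > (0 : ℤ), ∃ m : ℤ, f.coeff n = m := by
      obtain ⟨_, c2, _⟩ := Pool.Agent.Helper4.EL.covBasic (Ei L) hL.covi
      obtain ⟨u', ⟨p, hp, hp1, hp2⟩, hd⟩ := c2 e1 hPi
      have hb := snd_isInt hL hlam hp
      have hb1 : (p 1).coeff 0 = 1 := by
        rw [hp2 1]
        simpa [dq, e1] using hd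
      have hq : ![p 0 - f * p 1, p 1] ∈ cm (Um f) L := by
        rw [mem_cm, Um_mulVec]
        have : ![(![p 0 - f * p 1, p 1] : V) 0 + f * (![p 0 - f * p 1, p 1] : V) 1,
            (![p 0 - f * p 1, p 1] : V) 1] = p := by
          ext i : 1; fin_cases i <;> simp
        rw [this]; exact hp
      obtain ⟨M, _, hM1⟩ := exists_bound (p 0 - f * p 1)
      have h3 := high_int hL2 hPi' hlam' M _ hq (by simpa using hp1 1) (by simpa using hM1)
      refine high_div hb (hp1 1) hb1 N f hN2 (fun n hn => ?_)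
      obtain ⟨m, hm⟩ := h3 n hn
      refine ⟨-m, ?_⟩
      simp only [Matrix.cons_val_zero, AddMonoidAlgebra.coeff_sub, Finsupp.sub_apply,
        hp1 0 n hn] at hm
      push_cast
      linarith
    refine ⟨f - C (f.coeff 0), f.coeff 0, fun n => ?_, by ring⟩
    rw [AddMonoidAlgebra.coeff_sub, Finsupp.sub_apply, C_apply]
    rcases lt_trichotomy n 0 with h | h | h
    · obtain ⟨m, hm⟩ := hlow n h
      exact ⟨m, by rw [if_neg h.ne, hm, sub_zero]⟩
    · exact ⟨0, by rw [if_pos h, h]; simp⟩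
    · obtain ⟨m, hm⟩ := hhigh n h
      exact ⟨m, by rw [if_neg h.ne', hm, sub_zero]⟩

end Pool.Agent.Helper28.EL
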