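import Pool.Agent.Helper88.EL.Stmts

/-!
# Farey connectivity and Step B for pairs of lattices in `ℚ²` (MP_287ff4_al)
-/

set_option autoImplicit false

namespace Pool.Agent.Helper28.EL

open Pool.Agent.Helper88.EL

lemma dq_add_right (u v w : Q2) : dq u (v + w) = dq u v + dq u w := by
  simp only [dq, Pi.add_apply]; ring

lemma dq_add_left (u v w : Q2) : dq (u + v) w = dq u w + dq v w := by
  simp only [dq, Pi.add_apply]; ring

lemma dq_smul_right (u v : Q2) (c : ℚ) : dq u (c • v) = c * dq u v := by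
  simp only [dq, Pi.smul_apply, smul_eq_mul]; ring

lemma dq_smul_left (u v : Q2) (c : ℚ) : dq (c • u) v = c * dq u v := by
  simp only [dq, Pi.smul_apply, smul_eq_mul]; ring

lemma dq_swap (u v : Q2) : dq v u = - dq u v := by
  simp only [dq]; ring

lemma dq_self (u : Q2) : dq u u = 0 := by
  simp only [dq]; ring

lemma dq_neg_right (u v : Q2) : dq u (-v) = - dq u v := by
  simp only [dq, Pi.neg_apply]; ring

/-- Cramer's rule. -/
lemma cramer (u v w : Q2) : dq u v • w = dq w v • u + dq u w • v := by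
  ext i
  fin_cases i <;> simp [dq] <;> ring

lemma prim_ne_zero {E : AddSubgroup Q2} {u : Q2} (h : Prim E u) : u ≠ 0 := by
  rintro rfl
  obtain ⟨m, hm⟩ := h.2 (1 / 2) (by simp [E.zero_mem])
  have h2 : (1 : ℚ) = ((2 * m : ℤ) : ℚ) := by push_cast; linarith
  have h3 : (1 : ℤ) = 2 * m := by exact_mod_cast h2
  omega

lemma prim_neg {E : AddSubgroup Q2} {u : Q2} (h : Prim E u) : Prim E (-u) := by
  refine ⟨E.neg_mem h.1, fun c hc => ?_⟩
  have h1 : (-c) • u ∈ E := by
    have : (-c) • u = c • (-u) := by rw [neg_smul, smul_neg]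
    rwa [this]
  obtain ⟨m, hm⟩ := h.2 (-c) h1
  exact ⟨-m, by push_cast; linarith⟩

/-- if `c • u` and `u` are both primitive then `c = ± 1`. -/
lemma prim_pm {E : AddSubgroup Q2} {u : Q2} {c : ℚ} (h : Prim E u) (h' : Prim E (c • u)) :
    c = 1 ∨ c = -1 := by
  obtain ⟨m, hm⟩ := h.2 c h'.1
  have hc : c ≠ 0 := by
    rintro rfl
    exact prim_ne_zero h' (zero_smul _ _)
  obtain ⟨k, hk⟩ := h'.2 c⁻¹ (by rw [smul_smul, inv_mul_cancel₀ hc, one_smul]; exact h.1)
  have h1 : ((m * k : ℤ) : ℚ) = ((1 : ℤ) : ℚ) := by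
    push_cast
    rw [← hm, ← hk, mul_inv_cancel₀ hc]
  have h2 : m * k = 1 := by exact_mod_cast h1
  rcases Int.eq_one_or_neg_one_of_mul_eq_one h2 with h3 | h3
  · left; rw [hm, h3]; simp
  · right; rw [hm, h3]; simp

theorem farey : CovBasicStmt → FareyStmt := by
  intro hC E F hE _hEF R hsymm htrans hneg hadj
  obtain ⟨_, h2, h3, _, _⟩ := hC E hE
  have hself : ∀ u, Prim E u → u ∉ F → R u u := by
    intro u hu huF
    obtain ⟨w, hw, hd⟩ := h2 u hu
    by_cases hwF : w ∈ F
    · have hwF' : w + u ∉ F := fun h => huF (by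
        have := F.sub_mem h hwF
        rwa [add_sub_cancel_left] at this)
      have hR := hadj u hu.1 (w + u) (E.add_mem hw hu.1) huF hwF'
        (by rw [dq_add_right, hd, dq_self, add_zero])
      exact htrans _ _ _ hR (hsymm _ _ hR)
    · have hR := hadj u hu.1 w hw huF hwF hd
      exact htrans _ _ _ hR (hsymm _ _ hR)
  have key : ∀ n : ℕ, ∀ u v, Prim E u → Prim E v → u ∉ F → v ∉ F → dq u v = (n : ℚ) →
      R u v := by
    intro n
    induction n using Nat.strong_induction_on with
    | _ n ih =>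
      intro u v hu hv huF hvF hn
      obtain ⟨w0, hw0, hd⟩ := h2 u hu
      obtain ⟨_, _, hb⟩ := h3 u hu.1 w0 hw0 hd
      obtain ⟨k0, n0, hv'⟩ := (hb v).1 hv.1
      have hn0 : (n0 : ℚ) = n := by
        rw [← hn, hv', dq_add_right, dq_smul_right, dq_smul_right, dq_self, hd]
        ring
      have hn0' : n0 = (n : ℤ) := by exact_mod_cast hn0
      rcases Nat.eq_zero_or_pos n with hn1 | hn1
      · -- `v = ± u`
        have hv2 : v = (k0 : ℚ) • u := by
          rw [hv', hn0', hn1]; simp
        rw [hv2] at hv ⊢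
        rcases prim_pm hu hv with hk | hk
        · rw [hk, one_smul]; exact hself u hu huF
        · rw [hk, neg_one_smul]; exact hneg _ _ (hself u hu huF)
      · set q : ℤ := k0 / n with hq
        set k : ℤ := k0 % n with hk
        have hk0 : 0 ≤ k := Int.emod_nonneg _ (by omega)
        have hkn : k < n := Int.emod_lt_of_pos _ (by omega)
        have hqk : k0 = n * q + k := by rw [hq, hk]; exact (Int.mul_ediv_add_emod k0 n).symm
        obtain ⟨k', hk'⟩ := Int.eq_ofNat_of_zero_le hk0
        have hdw : dq u (w0 + (q : ℚ) • u) = 1 := by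
          rw [dq_add_right, dq_smul_right, dq_self, hd]; ring
        have hwE : w0 + (q : ℚ) • u ∈ E := by
          refine E.add_mem hw0 ?_
          rw [Int.cast_smul_eq_zsmul]
          exact E.zsmul_mem hu.1 q
        obtain ⟨_, hwP, _⟩ := h3 u hu.1 _ hwE hdw
        have hveq : v = (k : ℚ) • u + (n : ℚ) • (w0 + (q : ℚ) • u) := by
          have h1 : (k0 : ℚ) = n * q + k := by rw [hqk]; push_cast; ring
          rw [hv', hn0, h1]
          module
        by_cases hwF : w0 + (q : ℚ) • u ∈ F
        · -- use `w + u`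
          have hk1 : k ≠ 0 := by
            intro h0
            apply hvF
            rw [hveq, h0]
            simp only [Int.cast_zero, zero_smul, zero_add]
            rw [Nat.cast_smul_eq_nsmul]
            exact F.nsmul_mem hwF n
          have hwF' : (w0 + (q : ℚ) • u) + u ∉ F := fun h => huF (by
            have := F.sub_mem h hwF
            rwa [add_sub_cancel_left] at this)
          have hdw' : dq u ((w0 + (q : ℚ) • u) + u) = 1 := by
            rw [dq_add_right, hdw, dq_self, add_zero]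
          have hwE' : (w0 + (q : ℚ) • u) + u ∈ E := E.add_mem hwE hu.1
          obtain ⟨_, hwP', _⟩ := h3 u hu.1 _ hwE' hdw'
          have hR := hadj u hu.1 _ hwE' huF hwF' hdw'
          refine htrans _ _ _ hR (ih (n - k') (by omega) _ _ hwP' hv hwF' hvF ?_)
          have h1 : v = ((k : ℚ) - n) • u + (n : ℚ) • ((w0 + (q : ℚ) • u) + u) := by
            rw [hveq]; module
          rw [h1, dq_add_right, dq_smul_right, dq_smul_right, dq_self, dq_swap, hdw',
            Nat.cast_sub (by omega), hk']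
          push_cast
          ring
        · have hR := hadj u hu.1 _ hwE huF hwF hdw
          refine htrans _ _ _ hR (hsymm _ _ (ih k' (by omega) _ _ hv hwP hvF hwF ?_))
          rw [hveq, dq_add_left, dq_smul_left, dq_smul_left, dq_self, hdw, hk']
          push_cast
          ring
  intro u v hu hv huF hvF
  obtain ⟨w0, hw0, hd⟩ := h2 u hu
  obtain ⟨_, _, hb⟩ := h3 u hu.1 w0 hw0 hd
  obtain ⟨k0, n0, hv'⟩ := (hb v).1 hv.1
  have hn0 : dq u v = n0 := by
    rw [hv', dq_add_right, dq_smul_right, dq_smul_right, dq_self, hd]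
    ring
  rcases le_total 0 n0 with h0 | h0
  · obtain ⟨n, rfl⟩ := Int.eq_ofNat_of_zero_le h0
    exact key n u v hu hv huF hvF (by rw [hn0]; simp)
  · obtain ⟨n, hn⟩ := Int.eq_ofNat_of_zero_le (neg_nonneg.2 h0)
    have hR := key n u (-v) hu (prim_neg hv) huF (fun h => hvF (by simpa using F.neg_mem h)) (by
      rw [dq_neg_right, hn0]
      have : ((-n0 : ℤ) : ℚ) = ((n : ℤ) : ℚ) := by rw [hn]
      push_cast at this
      exact this)
    have := hneg _ _ hR
    rwa [neg_neg] at this

theorem stepB : CovBasicStmt → MinkStmt → FareyStmt → StepBStmt := by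
  intro hC hM hFa E E' hE hE' hne R hsymm htrans hsc hR
  obtain ⟨a1, a2, a3, a4, a5⟩ := hC E hE
  obtain ⟨b1, b2, b3, b4, b5⟩ := hC E' hE'
  -- one side
  have side : ∀ (E E' : AddSubgroup Q2), Cov1 E → Cov1 E' → E ≠ E' →
      (∀ u u', Prim E u → Prim E' u' → 0 < |dq u u'| → |dq u u'| < 1 → R u u') →
      (∀ u v, Prim E u → Prim E v → u ∉ E' → v ∉ E' → R u v) ∧
      (∃ u u', Prim E u ∧ u ∉ E' ∧ Prim E' u' ∧ u' ∉ E ∧ R u u') := by
    intro E E' hE hE' hne hR
    obtain ⟨a1, a2, a3, a4, a5⟩ := hC E hE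
    obtain ⟨b1, b2, b3, b4, b5⟩ := hC E' hE'
    have main : ∀ u1 ∈ E, ∀ u2 ∈ E, u1 ∉ E' → u2 ∉ E' → dq u1 u2 = 1 →
        R u1 u2 ∧ ∃ u u', Prim E u ∧ u ∉ E' ∧ Prim E' u' ∧ u' ∉ E ∧ R u u' := by
      intro u1 hu1 u2 hu2 hu1' hu2' hd
      obtain ⟨p1, p2, hb⟩ := a3 u1 hu1 u2 hu2 hd
      obtain ⟨u', hu', hu'0, hlt1, hlt2⟩ := hM E E' hE hE' u1 hu1 u2 hu2 hd hu1' hu2'
      obtain ⟨c, hc, hcP⟩ := b1 u' hu'0
      -- `u' = m • (c • u')` for an integer `m`
      obtain ⟨m, hm⟩ := hcP.2 c⁻¹ (by rw [smul_smul, inv_mul_cancel₀ hc.ne', one_smul]; exact hu')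
      have hm0 : (1 : ℚ) ≤ m := by
        have h1 : (0 : ℚ) < m := by rw [← hm]; exact inv_pos.2 hc
        have h2 : (0 : ℤ) < m := by exact_mod_cast h1
        exact_mod_cast h2
      have hc1 : c ≤ 1 := by
        have h1 : c = (m : ℚ)⁻¹ := by rw [← hm, inv_inv]
        rw [h1]
        exact inv_le_one_of_one_le₀ hm0
      have hlt : ∀ u, |dq u u'| < 1 → |dq u (c • u')| < 1 := by
        intro u hu
        rw [dq_smul_right, abs_mul, abs_of_pos hc]
        calc c * |dq u u'| ≤ 1 * |dq u u'| := by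
              exact mul_le_mul_of_nonneg_right hc1 (abs_nonneg _)
          _ = |dq u u'| := one_mul _
          _ < 1 := hu
      have hl1 := hlt u1 hlt1
      have hl2 := hlt u2 hlt2
      -- cannot both vanish
      have hnz : ¬ (dq u1 (c • u') = 0 ∧ dq u2 (c • u') = 0) := by
        rintro ⟨z1, z2⟩
        apply prim_ne_zero hcP
        have h1 := cramer u1 u2 (c • u')
        rw [hd, one_smul, z1, dq_swap, z2] at h1
        rw [h1]; simp
      have hnE : c • u' ∉ E := by
        intro hmem
        obtain ⟨k1, hk1⟩ := a4 u1 hu1 _ hmem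
        obtain ⟨k2, hk2⟩ := a4 u2 hu2 _ hmem
        apply hnz
        constructor
        · rw [hk1] at hl1 ⊢
          have : |k1| < 1 := by exact_mod_cast hl1
          have := Int.abs_lt_one_iff.1 this
          rw [this]; simp
        · rw [hk2] at hl2 ⊢
          have : |k2| < 1 := by exact_mod_cast hl2
          have := Int.abs_lt_one_iff.1 this
          rw [this]; simp
      by_cases z1 : dq u1 (c • u') = 0
      · have z2 : dq u2 (c • u') ≠ 0 := fun h => hnz ⟨z1, h⟩
        have r2 := hR u2 (c • u') p2 hcP (abs_pos.2 z2) hl2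
        refine ⟨?_, u2, c • u', p2, hu2', hcP, hnE, r2⟩
        -- `c • u'` is a multiple of `u1`
        have h1 := cramer u1 u2 (c • u')
        rw [hd, one_smul, z1, zero_smul, add_zero] at h1
        have hs : dq (c • u') u2 ≠ 0 := by
          rw [dq_swap]; exact neg_ne_zero.2 z2
        have r3 := hsc _ _ (dq (c • u') u2)⁻¹ (inv_ne_zero hs) r2
        have h2 : (dq (c • u') u2)⁻¹ • (c • u') = u1 := by
          nth_rewrite 2 [h1]
          rw [smul_smul, inv_mul_cancel₀ hs, one_smul]
        rw [h2] at r3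
        exact hsymm _ _ r3
      · have r1 := hR u1 (c • u') p1 hcP (abs_pos.2 z1) hl1
        refine ⟨?_, u1, c • u', p1, hu1', hcP, hnE, r1⟩
        by_cases z2 : dq u2 (c • u') = 0
        · have h1 := cramer u1 u2 (c • u')
          have h0 : dq (c • u') u2 = 0 := by rw [dq_swap, z2, neg_zero]
          rw [hd, one_smul, h0, zero_smul, zero_add] at h1
          have r3 := hsc _ _ (dq u1 (c • u'))⁻¹ (inv_ne_zero z1) r1
          have h2 : (dq u1 (c • u'))⁻¹ • (c • u') = u2 := by
            nth_rewrite 2 [h1]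
            rw [smul_smul, inv_mul_cancel₀ z1, one_smul]
          rw [h2] at r3
          exact r3
        · have r2 := hR u2 (c • u') p2 hcP (abs_pos.2 z2) hl2
          exact htrans _ _ _ r1 (hsymm _ _ r2)
    have hnle : ¬ E ≤ E' := fun h => hne (a5 E' hE' h)
    constructor
    · intro u v hu hv huF hvF
      exact hFa E E' hE hnle R hsymm htrans
        (fun u v h => by
          have := hsc u v (-1) (by norm_num) h
          rwa [neg_one_smul] at this)
        (fun u hu v hv huF hvF hd => (main u hu v hv huF hvF hd).1) u v hu hv huF hvF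
    · -- a basis outside `E'`
      obtain ⟨x, y, hxy, hEiff⟩ := hE
      have hx : x ∈ E := (hEiff x).2 ⟨1, 0, by simp⟩
      have hy : y ∈ E := (hEiff y).2 ⟨0, 1, by simp⟩
      have hor : x ∉ E' ∨ y ∉ E' := by
        by_contra hcon
        push Not at hcon
        apply hnle
        intro v hv
        obtain ⟨m, n, rfl⟩ := (hEiff v).1 hv
        rw [Int.cast_smul_eq_zsmul, Int.cast_smul_eq_zsmul]
        exact E'.add_mem (E'.zsmul_mem hcon.1 m) (E'.zsmul_mem hcon.2 n)
      -- find `u, v` with `dq u v = 1` both outside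
      have : ∃ u ∈ E, ∃ v ∈ E, u ∉ E' ∧ v ∉ E' ∧ dq u v = 1 := by
        rcases hor with h | h
        · by_cases hy' : y ∈ E'
          · refine ⟨x, hx, y + x, E.add_mem hy hx, h, fun h' => h ?_, ?_⟩
            · have := E'.sub_mem h' hy'
              rwa [add_sub_cancel_left] at this
            · rw [dq_add_right, hxy, dq_self, add_zero]
          · exact ⟨x, hx, y, hy, h, hy', hxy⟩
        · by_cases hx' : x ∈ E'
          · refine ⟨x + y, E.add_mem hx hy, y, hy, fun h' => h ?_, h, ?_⟩
            · have := E'.sub_mem h' hx'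
              rwa [add_sub_cancel_left] at this
            · rw [dq_add_left, hxy, dq_self, add_zero]
          · exact ⟨x, hx, y, hy, hx', h, hxy⟩
      obtain ⟨u, hu, v, hv, huF, hvF, hd⟩ := this
      exact (main u hu v hv huF hvF hd).2
  obtain ⟨s1, u0, u0', hu0, hu0E', hu0', hu0'E, hlink⟩ := side E E' hE hE' hne hR
  have s2 := (side E' E hE' hE hne.symm (fun u u' hu hu' h1 h2 =>
    hsymm _ _ (hR u' u hu' hu (by rwa [dq_swap, abs_neg]) (by rwa [dq_swap, abs_neg])))).1
  -- every mobile vector is related to `u0`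
  have fin : ∀ v, v ≠ 0 → (∀ c : ℚ, ¬ (Prim E (c • v) ∧ Prim E' (c • v))) → R u0 v := by
    intro v hv hmob
    obtain ⟨c, hc, hcP⟩ := a1 v hv
    obtain ⟨c', hc', hcP'⟩ := b1 v hv
    have back : ∀ (c : ℚ), 0 < c → R u0 (c • v) → R u0 v := by
      intro c hc h
      have := hsc _ _ c⁻¹ (inv_ne_zero hc.ne') h
      rwa [smul_smul, inv_mul_cancel₀ hc.ne', one_smul] at this
    by_cases h1 : c • v ∈ E'
    · by_cases h2 : c' • v ∈ E
      · exfalso
        -- `c • v = m • c' • v`, `c' • v = m' • c • v`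
        obtain ⟨m, hm⟩ := hcP'.2 (c / c') (by
          rw [smul_smul, div_mul_cancel₀ _ hc'.ne']; exact h1)
        obtain ⟨m', hm'⟩ := hcP.2 (c' / c) (by
          rw [smul_smul, div_mul_cancel₀ _ hc.ne']; exact h2)
        have h3 : ((m * m' : ℤ) : ℚ) = ((1 : ℤ) : ℚ) := by
          push_cast
          rw [← hm, ← hm']
          field_simp
        have h4 : m * m' = 1 := by exact_mod_cast h3
        have hmpos : (0 : ℚ) < m := by rw [← hm]; positivity
        have hm1 : m = 1 := by
          rcases Int.eq_one_or_neg_one_of_mul_eq_one h4 with h5 | h5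
          · exact h5
          · rw [h5] at hmpos; norm_num at hmpos
        have hcc : c = c' := by
          rw [hm1] at hm
          push_cast at hm
          rwa [div_eq_one_iff_eq hc'.ne'] at hm
        exact hmob c ⟨hcP, by rw [hcc]; exact hcP'⟩
      · refine back c' hc' (htrans _ _ _ hlink (s2 _ _ hu0' hcP' hu0'E h2))
    · exact back c hc (s1 _ _ hu0 hcP hu0E' h1)
  intro v w hv hw hmv hmw
  exact htrans _ _ _ (hsymm _ _ (fin v hv hmv)) (fin w hw hmw)

end Pool.Agent.Helper28.EL
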