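import Pool.Agent.Helper3.EL.Defs

/-!
# Project EL, module EL-J: the number of free columns in a random row order
-/

set_option autoImplicit false

namespace Pool.Agent.Helper3.EL

open Finset Pool.Agent.Lead.TB Pool.Agent.Lead.TB.Halves Pool.Agent.Helper84.TL

/-- Membership in `ls n`. -/
theorem h28_mem_ls {n : ℕ} {L : Fin n → Equiv.Perm (Fin n)} (hL : L ∈ ls n) {s s' : Fin n}
    (h : s ≠ s') (r : Fin n) : L s r ≠ L s' r := by
  unfold ls fac at hL
  simp only [Finset.mem_filter, Finset.mem_univ, true_and] at hL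
  exact hL.2 s s' h r

/-- The ranks of the members of a finite set run over `1, ..., |R|`. -/
theorem h28_rank_sum {n : ℕ} (ω : Equiv.Perm (Fin n)) (R : Finset (Fin n)) (F : ℕ → ℝ) :
    ∑ x ∈ R, F (R.filter fun y => ω x ≤ ω y).card = ∑ i ∈ Icc 1 R.card, F i := by
  have hinj : Set.InjOn (fun x => (R.filter fun y => ω x ≤ ω y).card) (R : Set (Fin n)) := by
    have key : ∀ x ∈ R, ∀ x' ∈ R, ω x < ω x' →
        (R.filter fun y => ω x' ≤ ω y).card < (R.filter fun y => ω x ≤ ω y).card := by
      intro x hx x' _ hlt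
      apply Finset.card_lt_card
      rw [Finset.ssubset_iff_of_subset]
      · refine ⟨x, ?_, ?_⟩
        · simp [hx]
        · simp [hlt]
      · intro y hy
        rw [Finset.mem_filter] at hy ⊢
        exact ⟨hy.1, hlt.le.trans hy.2⟩
    intro x hx x' hx' h
    simp only at h
    rcases lt_trichotomy (ω x) (ω x') with hlt | heq | hgt
    · exact absurd h (key x hx x' hx' hlt).ne'
    · exact ω.injective heq
    · exact absurd h (key x' hx' x hx hgt).ne
  have himg : R.image (fun x => (R.filter fun y => ω x ≤ ω y).card) = Icc 1 R.card := by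
    apply Finset.eq_of_subset_of_card_le
    · intro i hi
      rw [Finset.mem_image] at hi
      obtain ⟨x, hx, rfl⟩ := hi
      rw [Finset.mem_Icc]
      refine ⟨?_, Finset.card_le_card (Finset.filter_subset _ _)⟩
      exact Finset.card_pos.mpr ⟨x, by simp [hx]⟩
    · rw [Finset.card_image_of_injOn hinj]
      simp
  rw [← himg, Finset.sum_image hinj]

/-- The average does not depend on the member of `R`. -/
theorem h28_rank_swap {n : ℕ} (R : Finset (Fin n)) (F : ℕ → ℝ) {x x' : Fin n} (hx : x ∈ R)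
    (hx' : x' ∈ R) :
    ∑ ω : Equiv.Perm (Fin n), F (R.filter fun y => ω x ≤ ω y).card =
      ∑ ω : Equiv.Perm (Fin n), F (R.filter fun y => ω x' ≤ ω y).card := by
  have hR : ∀ y, Equiv.swap x x' y ∈ R ↔ y ∈ R := by
    intro y
    by_cases h1 : y = x
    · subst h1; simp [hx, hx']
    · by_cases h2 : y = x'
      · subst h2; simp [hx, hx']
      · rw [Equiv.swap_apply_of_ne_of_ne h1 h2]
  refine Fintype.sum_equiv (Equiv.mulRight (Equiv.swap x x')) _ _ ?_
  intro ω
  congr 1
  apply Finset.card_bij (fun y _ => Equiv.swap x x' y)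
  · intro y hy
    rw [Finset.mem_filter] at hy ⊢
    refine ⟨(hR y).mpr hy.1, ?_⟩
    simpa using hy.2
  · intro a _ b _ h
    exact (Equiv.swap x x').injective h
  · intro b hb
    rw [Finset.mem_filter] at hb
    refine ⟨Equiv.swap x x' b, ?_, by simp⟩
    rw [Finset.mem_filter]
    refine ⟨(hR b).mpr hb.1, ?_⟩
    simpa using hb.2

/-- The rows whose column under `L s` is not yet used at the row `r`. -/
def h28_R0 {n : ℕ} (L : Fin n → Equiv.Perm (Fin n)) (s r : Fin n) : Finset (Fin n) :=
  univ.filter fun x => ∀ s', s' < s → L s' r ≠ L s x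

theorem h28_avl_card {n : ℕ} (L : Fin n → Equiv.Perm (Fin n)) (s r : Fin n)
    (ω : Equiv.Perm (Fin n)) :
    (avl ω L s r).card = ((h28_R0 L s r).filter fun x => ω r ≤ ω x).card := by
  symm
  apply Finset.card_bij (fun x _ => L s x)
  · intro x hx
    unfold h28_R0 at hx
    rw [Finset.mem_filter, Finset.mem_filter] at hx
    unfold avl
    rw [Finset.mem_filter]
    refine ⟨Finset.mem_univ _, hx.1.2, ?_⟩
    intro r' hr' h
    have := (L s).injective h
    subst this
    exact absurd hx.2 (not_le.mpr hr')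
  · intro a _ b _ h
    exact (L s).injective h
  · intro c hc
    unfold avl at hc
    rw [Finset.mem_filter] at hc
    refine ⟨(L s).symm c, ?_, by simp⟩
    unfold h28_R0
    rw [Finset.mem_filter, Finset.mem_filter]
    refine ⟨⟨Finset.mem_univ _, ?_⟩, ?_⟩
    · intro s' hs'
      rw [Equiv.apply_symm_apply]
      exact hc.2.1 s' hs'
    · by_contra h
      rw [not_le] at h
      exact hc.2.2 _ h (by simp)

theorem h28_R0_card {n : ℕ} {L : Fin n → Equiv.Perm (Fin n)} (hL : L ∈ ls n) (s r : Fin n) :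
    (h28_R0 L s r).card = n - s.val := by
  have hinj : Function.Injective (fun s' : Fin n => (L s).symm (L s' r)) := by
    intro a b h
    by_contra hab
    exact h28_mem_ls hL hab r ((L s).symm.injective h)
  have hc : (h28_R0 L s r) = ((Finset.Iio s).image fun s' => (L s).symm (L s' r))ᶜ := by
    ext x
    unfold h28_R0
    rw [Finset.mem_filter, Finset.mem_compl, Finset.mem_image]
    constructor
    · rintro ⟨_, h⟩ ⟨s', hs', h'⟩
      exact h s' (Finset.mem_Iio.mp hs') (by rw [← h']; simp)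
    · intro h
      refine ⟨Finset.mem_univ _, ?_⟩
      intro s' hs' h'
      exact h ⟨s', Finset.mem_Iio.mpr hs', by rw [h']; simp⟩
  rw [hc, Finset.card_compl, Finset.card_image_of_injective _ hinj, Fin.card_Iio,
    Fintype.card_fin]

theorem h28_mem_R0 {n : ℕ} {L : Fin n → Equiv.Perm (Fin n)} (hL : L ∈ ls n) (s r : Fin n) :
    r ∈ h28_R0 L s r := by
  unfold h28_R0
  rw [Finset.mem_filter]
  exact ⟨Finset.mem_univ _, fun s' hs' => h28_mem_ls hL hs'.ne r⟩

theorem rank_avg {n : ℕ} {L : Fin n → Equiv.Perm (Fin n)} (hL : L ∈ ls n) (s r : Fin n)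
    (F : ℕ → ℝ) :
    (∑ ω : Equiv.Perm (Fin n), F (avl ω L s r).card) / (n.factorial : ℝ) =
      (∑ i ∈ Icc 1 (n - s.val), F i) / ((n - s.val : ℕ) : ℝ) := by
  have hR := h28_R0_card hL s r
  have hr := h28_mem_R0 hL s r
  set R := h28_R0 L s r with hRdef
  have h1 : ∑ x ∈ R, ∑ ω : Equiv.Perm (Fin n), F (R.filter fun y => ω x ≤ ω y).card =
      (R.card : ℝ) * ∑ ω : Equiv.Perm (Fin n), F (avl ω L s r).card := by
    have : ∀ x ∈ R, ∑ ω : Equiv.Perm (Fin n), F (R.filter fun y => ω x ≤ ω y).card =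
        ∑ ω : Equiv.Perm (Fin n), F (avl ω L s r).card := by
      intro x hx
      rw [h28_rank_swap R F hx hr]
      refine Finset.sum_congr rfl fun ω _ => ?_
      rw [h28_avl_card]
    rw [Finset.sum_congr rfl this, Finset.sum_const, nsmul_eq_mul]
  have h2 : ∑ x ∈ R, ∑ ω : Equiv.Perm (Fin n), F (R.filter fun y => ω x ≤ ω y).card =
      (n.factorial : ℝ) * ∑ i ∈ Icc 1 (n - s.val), F i := by
    rw [Finset.sum_comm]
    rw [Finset.sum_congr rfl (fun ω _ => h28_rank_sum ω R F), Finset.sum_const, nsmul_eq_mul,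
      hR, Finset.card_univ, Fintype.card_perm, Fintype.card_fin]
  have hpos : (0 : ℝ) < (R.card : ℝ) := by
    exact_mod_cast Finset.card_pos.mpr ⟨r, hr⟩
  have hf : (0 : ℝ) < (n.factorial : ℝ) := by exact_mod_cast n.factorial_pos
  rw [← hR, div_eq_div_iff hf.ne' hpos.ne']
  rw [hR] at h1 ⊢
  rw [mul_comm, ← h1, h2, mul_comm]

end Pool.Agent.Helper3.EL
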